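import Pool.Agent.H57.UGB.Defs

/-!
# Block B, module NEG0: a jet differential of negative twist
-/

set_option autoImplicit false

open MvPolynomial

namespace Pool.Agent.H57.UGB

open Pool.Agent.H47.KB Pool.Agent.H47.UG

private theorem n0_pt_rename {n k : ℕ} {R : Type} [CommRing R] [Algebra ℂ R] (a : (Fin (n + 2) →₀ ℕ) → R)
    (y : Fin (n + 2) → PowerSeries R) (c : Cof n) :
    pt a y (rename Sum.inl c : JR n k) = aeval a c := by
  rw [pt, aeval_rename]
  rfl

private theorem n0_pt_inr {n k : ℕ} {R : Type} [CommRing R] [Algebra ℂ R] (a : (Fin (n + 2) →₀ ℕ) → R)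
    (y : Fin (n + 2) → PowerSeries R) (i : Fin (n + 2)) :
    pt a y (X (Sum.inr (i, 0)) : JR n k) = PowerSeries.constantCoeff (y i) := by
  rw [pt, aeval_X, Sum.elim_inr]
  exact PowerSeries.coeff_zero_eq_constantCoeff_apply _

/-- `neg0` from the statements REP, LINK, HOM and the rules for Taylor series. -/
theorem neg0_of {n d : ℕ} (T : FF d (genK n d)) (k : ℕ)
    (hrep : ∀ (b m : ℕ) (σ : T.BB), σ ∈ FF.H0 (T.EE k (-(b : ℤ)) m) →
      ∃ c : Cof n, c ≠ 0 ∧ ∀ i, ∃ Q : JR n k,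
        C (T.x i) ^ b * (aeval (aK T k) c * rk T k σ) =
          pt (aK T k) (fun j => ser T k (T.x j / T.x i)) Q)
    (hlink : ∀ E : JR n k, zk T k E = 0 → ∃ c : Cof n, c ≠ 0 ∧
      ∀ (R : Type) [CommRing R] [Algebra ℂ R] (a : (Fin (n + 2) →₀ ℕ) → R)
        (y : Fin (n + 2) → PowerSeries R),
        OnT d k a y → y 0 = 1 → IsUnit (aeval a c) → IsUnit (FL d a y) → pt a y E = 0)
    (hhom : ∀ (i : Fin (n + 2)) (c : ℕ) (P : JR n k), Dg c P →
      ∃ Q : JR n k, ∀ (R : Type) [CommRing R] [Algebra ℂ R] (a : (Fin (n + 2) →₀ ℕ) → R)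
        (y u : Fin (n + 2) → PowerSeries R), u i = 1 → (∀ j, u j * y i = y j) →
        pt a y Q = PowerSeries.constantCoeff (y i) ^ c * pt a u P)
    (hdg : ∀ P : JR n k, ∃ c, Dg c P) (h1 : ser T k 1 = 1)
    (hmul : ∀ u v : T.L, ser T k (u * v) = ser T k u * ser T k v)
    (h0 : ∀ v : T.L, PowerSeries.constantCoeff (ser T k v) = C v)
    (b m : ℕ) (σ : T.BB) (hσ : σ ∈ FF.H0 (T.EE k (-(b : ℤ)) m)) :
    ∃ c : Cof n, c ≠ 0 ∧ ∃ P : JR n k, zk T k P = aeval (aK T k) c * rk T k σ ∧ Neg n d k c b P := by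
  obtain ⟨c1, hc1, hQ⟩ := hrep b m σ hσ
  choose Q hQ using hQ
  have hP : zk T k (Q 0) = aeval (aK T k) c1 * rk T k σ := by
    have h := hQ 0
    rw [T.x_zero, C_1, one_pow, one_mul] at h
    rw [h]
    show pt (aK T k) (fun j => ser T k (T.x j)) (Q 0) = _
    simp only [div_one]
  choose D hD using fun i => hdg (Q i)
  choose Qt hQt using fun i => hhom i (D i) (Q i) (hD i)
  have hE : ∀ i, zk T k (X (Sum.inr (i, 0)) ^ (D i + b) * Q 0 - Qt i) = 0 := by
    intro i
    have e1 : zk T k (X (Sum.inr (i, 0)) : JR n k) = C (T.x i) := by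
      show pt (aK T k) (fun j => ser T k (T.x j)) (X (Sum.inr (i, 0)) : JR n k) = _
      rw [n0_pt_inr, h0]
    have e2 : zk T k (Qt i) = C (T.x i) ^ D i *
        pt (aK T k) (fun j => ser T k (T.x j / T.x i)) (Q i) := by
      have h := hQt i (Bk T k) (aK T k) (fun j => ser T k (T.x j)) (fun j => ser T k (T.x j / T.x i))
        (by rw [div_self (T.x_ne i), h1])
        (fun j => by rw [← hmul, div_mul_cancel₀ _ (T.x_ne i)])
      rw [h0] at h
      exact h
    rw [map_sub, map_mul, map_pow, e1, e2, hP, ← hQ i, pow_add]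
    ring
  choose ci hci hci' using fun i => hlink _ (hE i)
  refine ⟨c1 * ∏ i, ci i, mul_ne_zero hc1 (Finset.prod_ne_zero_iff.2 fun i _ => hci i),
    rename Sum.inl (∏ i, ci i) * Q 0, ?_, fun i => ?_⟩
  · have e1 : zk T k (rename Sum.inl (∏ i, ci i) : JR n k) = aeval (aK T k) (∏ i, ci i) :=
      n0_pt_rename _ _ _
    rw [map_mul, e1, hP, map_mul]
    ring
  · refine ⟨rename Sum.inl (∏ i, ci i) * Q i, fun R _ _ a y u hOn hy hu huy hc hF hyi => ?_⟩
    have hcu : IsUnit (aeval a (ci i)) := by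
      refine isUnit_of_dvd_unit (map_dvd _ ?_) hc
      exact (Finset.dvd_prod_of_mem ci (Finset.mem_univ i)).mul_left c1
    have e1 := hci' i R a y hOn hy hcu hF
    rw [map_sub, map_mul, map_pow, n0_pt_inr, hQt i R a y u hu huy, sub_eq_zero, pow_add, mul_assoc] at e1
    have e2 := (hyi.pow (D i)).mul_left_cancel e1
    rw [map_mul, map_mul, n0_pt_rename, n0_pt_rename, ← e2]
    ring

end Pool.Agent.H57.UGB
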